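import Pool.Agent.N630.EFG.Lang

/-!
A countable group elementarily equivalent to the free group of rank two that contains a free
abelian group of rank two.
-/

set_option autoImplicit false

namespace Pool.Agent.N630.EFG

open FirstOrder FirstOrder.Language Filter

/-- the nonprincipal ultrafilter -/
noncomputable abbrev UU : Ultrafilter ℕ := hyperfilter ℕ

/-- the ultrapower of the free group of rank two -/
abbrev PP : Type := (UU : Filter ℕ).Product (fun _ : ℕ => FreeGroup (Fin 2))

/-- the structure of the free group of rank two -/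
@[reducible] def strF : Lgrp.Structure (FreeGroup (Fin 2)) := grpStr _

attribute [local instance] strF

/-- the class of a sequence -/
noncomputable def cls (x : ℕ → FreeGroup (Fin 2)) : PP := (x : PP)

@[reducible] noncomputable def strPP : Lgrp.Structure PP := inferInstance

theorem exists_cls (p : PP) : ∃ x, p = cls x := by
  obtain ⟨x, hx⟩ := Quotient.exists_rep p
  exact ⟨x, hx.symm⟩

noncomputable def mulPP (p q : PP) : PP := strPP.funMap GrpFn.mul ![p, q]
noncomputable def invPP (p : PP) : PP := strPP.funMap GrpFn.inv ![p]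
noncomputable def onePP : PP := strPP.funMap GrpFn.one ![]

theorem mul_cls (x y : ℕ → FreeGroup (Fin 2)) : mulPP (cls x) (cls y) = cls (x * y) := by
  have h := Ultraproduct.funMap_cast (L := Lgrp) (u := UU) (M := fun _ : ℕ => FreeGroup (Fin 2))
    GrpFn.mul ![x, y]
  have e : (![cls x, cls y] : Fin 2 → PP) =
      fun i => ((![x, y] : Fin 2 → ∀ _ : ℕ, FreeGroup (Fin 2)) i : PP) := by
    funext i
    fin_cases i <;> rfl
  unfold mulPP
  rw [e]
  exact h

theorem inv_cls (x : ℕ → FreeGroup (Fin 2)) : invPP (cls x) = cls x⁻¹ := by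
  have h := Ultraproduct.funMap_cast (L := Lgrp) (u := UU) (M := fun _ : ℕ => FreeGroup (Fin 2))
    GrpFn.inv ![x]
  have e : (![cls x] : Fin 1 → PP) =
      fun i => ((![x] : Fin 1 → ∀ _ : ℕ, FreeGroup (Fin 2)) i : PP) := by
    funext i
    fin_cases i; rfl
  unfold invPP
  rw [e]
  exact h

theorem one_cls : onePP = cls 1 := by
  have h := Ultraproduct.funMap_cast (L := Lgrp) (u := UU) (M := fun _ : ℕ => FreeGroup (Fin 2))
    GrpFn.one ![]
  have e : (![] : Fin 0 → PP) =
      fun i => ((![] : Fin 0 → ∀ _ : ℕ, FreeGroup (Fin 2)) i : PP) := Subsingleton.elim _ _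
  unfold onePP
  rw [e]
  exact h

noncomputable instance : Mul PP := ⟨mulPP⟩
noncomputable instance : Inv PP := ⟨invPP⟩
noncomputable instance : One PP := ⟨onePP⟩

noncomputable instance grpPP : Group PP := Group.ofLeftAxioms
  (by
    intro a b c
    obtain ⟨x, rfl⟩ := exists_cls a
    obtain ⟨y, rfl⟩ := exists_cls b
    obtain ⟨z, rfl⟩ := exists_cls c
    show mulPP (mulPP _ _) _ = mulPP _ (mulPP _ _)
    rw [mul_cls, mul_cls, mul_cls, mul_cls, mul_assoc])
  (by
    intro a
    obtain ⟨x, rfl⟩ := exists_cls a
    show mulPP onePP _ = _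
    rw [one_cls, mul_cls, one_mul])
  (by
    intro a
    obtain ⟨x, rfl⟩ := exists_cls a
    show mulPP (invPP _) _ = onePP
    rw [inv_cls, mul_cls, one_cls, inv_mul_cancel])

/-- the quotient map as a homomorphism -/
noncomputable def clsHom : (ℕ → FreeGroup (Fin 2)) →* PP where
  toFun := cls
  map_one' := one_cls.symm
  map_mul' x y := (mul_cls x y).symm

theorem strPP_eq : strPP = grpStr PP := by
  apply Language.Structure.ext
  · funext n f
    cases f with
    | one =>
      funext x
      show strPP.funMap GrpFn.one x = onePP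
      rw [Subsingleton.elim x (![] : Fin 0 → PP)]; rfl
    | inv =>
      funext x
      show strPP.funMap GrpFn.inv x = invPP (x 0)
      unfold invPP
      congr 1
      funext i
      fin_cases i; rfl
    | mul =>
      funext x
      show strPP.funMap GrpFn.mul x = mulPP (x 0) (x 1)
      unfold mulPP
      congr 1
      funext i
      fin_cases i <;> rfl
  · funext n r
    exact r.elim

theorem elemPP : ElemEquiv PP (FreeGroup (Fin 2)) := by
  intro φ
  unfold Sat
  rw [← strPP_eq]
  have h := Ultraproduct.sentence_realize (L := Lgrp) (u := UU)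
    (M := fun _ : ℕ => FreeGroup (Fin 2)) φ
  refine h.trans ?_
  exact eventually_const

/-- Isomorphic structures satisfy the same sentences. -/
theorem transfer (M N : Type) (s : Lgrp.Structure M) (t : Lgrp.Structure N) (e : M ≃ N)
    (he : ∀ {n : ℕ} (f : Lgrp.Functions n) (x : Fin n → M),
      e (s.funMap f x) = t.funMap f (e ∘ x)) (φ : Lgrp.Sentence) : M ⊨ φ ↔ N ⊨ φ := by
  let E : M ≃[Lgrp] N :=
    { toEquiv := e
      map_fun' := he
      map_rel' := by
        intro n r
        exact r.elim }
  exact Language.StrongHomClass.realize_sentence E φ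

/-- The countable group. -/
theorem exists_countable (s : Set PP) (hs : s.Countable) : ∃ K : Subgroup PP, Countable K ∧
    s ⊆ K ∧ ElemEquiv K (FreeGroup (Fin 2)) := by
  letI : Lgrp.Structure PP := grpStr PP
  have hinf : Infinite PP := by
    have hinj : Function.Injective fun n : ℕ => cls (fun _ => FreeGroup.of 0 ^ n) := by
      intro m n h
      have h1 : ∀ᶠ _ : ℕ in (UU : Filter ℕ), (FreeGroup.of 0 ^ m : FreeGroup (Fin 2)) =
          FreeGroup.of 0 ^ n := Quotient.exact h
      rw [eventually_const] at h1
      have h2 := congrArg (FreeGroup.lift fun _ : Fin 2 => Multiplicative.ofAdd (1 : ℤ)) h1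
      rw [map_pow, map_pow, FreeGroup.lift_apply_of, ← ofAdd_nsmul, ← ofAdd_nsmul] at h2
      have h3 := Multiplicative.ofAdd.injective h2
      simpa using h3
    exact Infinite.of_injective _ hinj
  have hcard : Lgrp.card ≤ Cardinal.aleph0 := by
    have : Countable (Σ l, Lgrp.Functions l) := by
      have hf : ∀ l, Countable (GrpFn l) := by
        intro l
        have : Function.Injective (fun g : GrpFn l => match g with
          | .one => 0
          | .inv => 1
          | .mul => 2 : GrpFn l → ℕ) := by
          intro a b h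
          cases a <;> cases b <;> rfl
        exact this.countable
      infer_instance
    have h2 : Countable (Σ l, Lgrp.Relations l) := by
      have : ∀ l, Countable (Lgrp.Relations l) := fun l => inferInstanceAs (Countable Empty)
      infer_instance
    have h3 : Countable Lgrp.Symbols := by
      unfold Language.Symbols
      infer_instance
    exact Cardinal.mk_le_aleph0
  obtain ⟨S, hsS, hS⟩ := exists_elementarySubstructure_card_eq Lgrp s Cardinal.aleph0.{0} le_rfl
    (by simpa using hs.le_aleph0) (by simpa using hcard) (by simp)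
  have hmem : ∀ {n : ℕ} (f : Lgrp.Functions n) (x : Fin n → PP), (∀ i, x i ∈ S) →
      (grpStr PP).funMap f x ∈ S := by
    intro n f x hx
    exact S.toSubstructure.fun_mem f x hx
  let K : Subgroup PP :=
    { carrier := S
      mul_mem' := by
        intro a b ha hb
        exact hmem GrpFn.mul ![a, b] (by intro i; fin_cases i; exacts [ha, hb])
      one_mem' := hmem GrpFn.one ![] (fun i => i.elim0)
      inv_mem' := by
        intro a ha
        exact hmem GrpFn.inv ![a] (by intro i; fin_cases i; exact ha) }
  refine ⟨K, ?_, hsS, ?_⟩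
  · have h1 : Cardinal.mk S = Cardinal.aleph0 := by simpa using hS
    have h2 : Countable S := Cardinal.mk_le_aleph0_iff.1 h1.le
    exact h2
  · intro φ
    rw [← elemPP φ]
    unfold Sat
    have h1 : (S ⊨ φ) ↔ PP ⊨ φ := S.realize_sentence φ
    rw [← h1]
    exact transfer K S (grpStr K) S.inducedStructure (Equiv.refl _)
      (by
        intro n f x
        cases f with
        | one => rfl
        | inv => rfl
        | mul => rfl) φ

/-- There is a countable group with the theory of `F₂` containing a free abelian group of rank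
two. -/
theorem exists_group : ∃ (G : Type) (_ : Group G) (a b : G), Countable G ∧
    ElemEquiv G (FreeGroup (Fin 2)) ∧ a * b = b * a ∧
    ∀ m n : ℤ, a ^ m * b ^ n = 1 → m = 0 ∧ n = 0 := by
  let x : ℕ → FreeGroup (Fin 2) := fun _ => FreeGroup.of 0
  let y : ℕ → FreeGroup (Fin 2) := fun n => FreeGroup.of 0 ^ n
  obtain ⟨K, hK, hsK, hE⟩ := exists_countable {clsHom x, clsHom y} (Set.to_countable _)
  refine ⟨K, inferInstance, ⟨clsHom x, hsK (by simp)⟩, ⟨clsHom y, hsK (by simp)⟩, hK, hE, ?_, ?_⟩
  · apply Subtype.ext
    show clsHom x * clsHom y = clsHom y * clsHom x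
    rw [← map_mul, ← map_mul]
    congr 1
    funext n
    show (FreeGroup.of 0 : FreeGroup (Fin 2)) * FreeGroup.of 0 ^ n =
      FreeGroup.of 0 ^ n * FreeGroup.of 0
    rw [← pow_succ', pow_succ]
  · intro m n h
    have h1 : clsHom x ^ m * clsHom y ^ n = 1 := congrArg Subtype.val h
    rw [← map_zpow, ← map_zpow, ← map_mul, ← map_one clsHom] at h1
    have h2 : ∀ᶠ k : ℕ in (UU : Filter ℕ), (x ^ m * y ^ n) k = (1 : ℕ → FreeGroup (Fin 2)) k :=
      Quotient.exact h1
    have h3 : ∀ᶠ k : ℕ in (UU : Filter ℕ), m + k * n = 0 := by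
      filter_upwards [h2] with k hk
      have h4 : (FreeGroup.of 0 : FreeGroup (Fin 2)) ^ m * (FreeGroup.of 0 ^ k) ^ n = 1 := hk
      have h5 := congrArg (FreeGroup.lift fun _ : Fin 2 => Multiplicative.ofAdd (1 : ℤ)) h4
      simp only [_root_.map_mul, _root_.map_zpow, _root_.map_pow, _root_.map_one,
        FreeGroup.lift_apply_of] at h5
      have h6 := congrArg Multiplicative.toAdd h5
      simp at h6
      linarith [h6, mul_comm n (k : ℤ)]
    have hinf : {k : ℕ | m + k * n = 0}.Infinite := by
      intro hfin
      have := hfin.compl_mem_hyperfilter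
      have h7 : {k : ℕ | m + k * n = 0} ∩ {k : ℕ | m + k * n = 0}ᶜ ∈ (UU : Filter ℕ) :=
        Filter.inter_mem h3 this
      rw [Set.inter_compl_self] at h7
      exact Filter.empty_notMem _ h7
    obtain ⟨k, hk, l, hl, hkl⟩ := hinf.nontrivial
    have hk' : m + k * n = 0 := hk
    have hl' : m + l * n = 0 := hl
    have h8 : ((k : ℤ) - l) * n = 0 := by linarith
    have h9 : (k : ℤ) - l ≠ 0 := by
      intro h10
      apply hkl
      omega
    have hn : n = 0 := by
      rcases mul_eq_zero.1 h8 with h | h
      · exact absurd h h9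
      · exact h
    subst hn
    simp at hk'
    exact ⟨hk', rfl⟩

end Pool.Agent.N630.EFG
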