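import Mathlib

/-!
The first-order language of groups, and a semantic notion of definability.
-/

set_option autoImplicit false

namespace Pool.Agent.N630.EFG

open FirstOrder FirstOrder.Language

/-- The function symbols of the language of groups. -/
inductive GrpFn : ℕ → Type
  | one : GrpFn 0
  | inv : GrpFn 1
  | mul : GrpFn 2

/-- The first-order language of groups: multiplication, inverse, identity. -/
abbrev Lgrp : Language := ⟨GrpFn, fun _ => Empty⟩

/-- Every group is a structure for the language of groups. -/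
@[reducible] def grpStr (G : Type) [Group G] : Lgrp.Structure G where
  funMap := fun {_} f =>
    match f with
    | .one => fun _ => 1
    | .inv => fun x => (x 0)⁻¹
    | .mul => fun x => x 0 * x 1
  RelMap := fun {_} r => r.elim

/-- `G` satisfies the sentence `φ` of the language of groups. -/
def Sat (G : Type) [Group G] (φ : Lgrp.Sentence) : Prop :=
  letI := grpStr G; G ⊨ φ

/-- Two groups have the same first-order theory. -/
def ElemEquiv (G H : Type) [Group G] [Group H] : Prop :=
  ∀ φ : Lgrp.Sentence, Sat G φ ↔ Sat H φ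

/-- the term for a word -/
def wordTerm {n : ℕ} : List (Fin n × Bool) → Lgrp.Term (Empty ⊕ Fin n)
  | [] => Term.func (l := 0) GrpFn.one ![]
  | (i, true) :: l => Term.func (l := 2) GrpFn.mul ![Term.var (Sum.inr i), wordTerm l]
  | (i, false) :: l => Term.func (l := 2) GrpFn.mul
      ![Term.func (l := 1) GrpFn.inv ![Term.var (Sum.inr i)], wordTerm l]

theorem realize_wordTerm {n : ℕ} {G : Type} [Group G] (l : List (Fin n × Bool)) (v : Fin n → G) :
    letI := grpStr G
    (wordTerm l).realize (Sum.elim (default : Empty → G) v) = FreeGroup.lift v (FreeGroup.mk l) := by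
  letI := grpStr G
  induction l with
  | nil =>
    rw [← FreeGroup.one_eq_mk, map_one]
    rfl
  | cons a l ih =>
    obtain ⟨i, b⟩ := a
    have h : FreeGroup.mk ((i, b) :: l) = FreeGroup.mk [(i, b)] * FreeGroup.mk l := by
      rw [FreeGroup.mul_mk]; rfl
    rw [h, map_mul, ← ih]
    cases b
    · show (v i)⁻¹ * _ = _
      congr 1
      simp
    · show v i * _ = _
      congr 1
      simp

/-- First-order definable predicates on tuples in groups. -/
def Def {n : ℕ} (P : ∀ (G : Type) [Group G], (Fin n → G) → Prop) : Prop :=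
  ∃ φ : Lgrp.BoundedFormula Empty n, ∀ (G : Type) [Group G] (v : Fin n → G),
    (letI := grpStr G; φ.Realize default v) ↔ P G v

theorem Def.word {n : ℕ} (w : FreeGroup (Fin n)) :
    Def (n := n) fun _ _ v => FreeGroup.lift v w = 1 := by
  refine ⟨Term.bdEqual (wordTerm w.toWord) (Term.func (l := 0) GrpFn.one ![]), fun G _ v => ?_⟩
  letI := grpStr G
  rw [BoundedFormula.realize_bdEqual, realize_wordTerm, FreeGroup.mk_toWord]
  rfl

theorem Def.not {n : ℕ} {P : ∀ (G : Type) [Group G], (Fin n → G) → Prop} (h : Def P) :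
    Def fun G _ v => ¬ P G v := by
  obtain ⟨φ, hφ⟩ := h
  refine ⟨∼φ, fun G _ v => ?_⟩
  letI := grpStr G
  rw [BoundedFormula.realize_not, hφ]

theorem Def.and {n : ℕ} {P Q : ∀ (G : Type) [Group G], (Fin n → G) → Prop} (h : Def P)
    (h' : Def Q) : Def fun G _ v => P G v ∧ Q G v := by
  obtain ⟨φ, hφ⟩ := h
  obtain ⟨ψ, hψ⟩ := h'
  refine ⟨φ ⊓ ψ, fun G _ v => ?_⟩
  letI := grpStr G
  rw [BoundedFormula.realize_inf, hφ, hψ]

theorem Def.or {n : ℕ} {P Q : ∀ (G : Type) [Group G], (Fin n → G) → Prop} (h : Def P)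
    (h' : Def Q) : Def fun G _ v => P G v ∨ Q G v := by
  obtain ⟨φ, hφ⟩ := h
  obtain ⟨ψ, hψ⟩ := h'
  refine ⟨φ ⊔ ψ, fun G _ v => ?_⟩
  letI := grpStr G
  rw [BoundedFormula.realize_sup, hφ, hψ]

theorem Def.imp {n : ℕ} {P Q : ∀ (G : Type) [Group G], (Fin n → G) → Prop} (h : Def P)
    (h' : Def Q) : Def fun G _ v => P G v → Q G v := by
  obtain ⟨φ, hφ⟩ := h
  obtain ⟨ψ, hψ⟩ := h'
  refine ⟨φ.imp ψ, fun G _ v => ?_⟩
  letI := grpStr G
  rw [BoundedFormula.realize_imp, hφ, hψ]

theorem Def.ex {n : ℕ} {P : ∀ (G : Type) [Group G], (Fin (n + 1) → G) → Prop} (h : Def P) :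
    Def fun G _ v => ∃ x, P G (Fin.snoc v x) := by
  obtain ⟨φ, hφ⟩ := h
  refine ⟨φ.ex, fun G _ v => ?_⟩
  letI := grpStr G
  rw [BoundedFormula.realize_ex]
  exact exists_congr fun x => hφ G _

theorem Def.all {n : ℕ} {P : ∀ (G : Type) [Group G], (Fin (n + 1) → G) → Prop} (h : Def P) :
    Def fun G _ v => ∀ x, P G (Fin.snoc v x) := by
  obtain ⟨φ, hφ⟩ := h
  refine ⟨φ.all, fun G _ v => ?_⟩
  letI := grpStr G
  rw [BoundedFormula.realize_all]
  exact forall_congr' fun x => hφ G _

theorem Def.true {n : ℕ} : Def (n := n) fun _ _ _ => True := by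
  have h := Def.word (n := n) 1
  obtain ⟨φ, hφ⟩ := h
  exact ⟨φ, fun G _ v => by rw [hφ]; simp⟩

theorem Def.congr {n : ℕ} {P Q : ∀ (G : Type) [Group G], (Fin n → G) → Prop} (h : Def P)
    (h' : ∀ (G : Type) [Group G] (v : Fin n → G), P G v ↔ Q G v) : Def Q := by
  obtain ⟨φ, hφ⟩ := h
  exact ⟨φ, fun G _ v => (hφ G v).trans (h' G v)⟩

theorem Def.finAnd {n : ℕ} {ι : Type} (s : Finset ι)
    {P : ι → ∀ (G : Type) [Group G], (Fin n → G) → Prop} (h : ∀ i, Def (P i)) :
    Def fun G _ v => ∀ i ∈ s, P i G v := by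
  classical
  induction s using Finset.induction_on with
  | empty => exact Def.true.congr fun G _ v => by simp
  | insert a s ha ih => exact ((h a).and ih).congr fun G _ v => by simp

theorem Def.finOr {n : ℕ} {ι : Type} (s : Finset ι)
    {P : ι → ∀ (G : Type) [Group G], (Fin n → G) → Prop} (h : ∀ i, Def (P i)) :
    Def fun G _ v => ∃ i ∈ s, P i G v := by
  have := (Def.finAnd s (fun i => (h i).not)).not
  exact this.congr fun G _ v => by push Not; rfl

theorem Def.exs {n : ℕ} {P : ∀ (G : Type) [Group G], (Fin n → G) → Prop} (h : Def P) :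
    Def (n := 0) fun G _ _ => ∃ v, P G v := by
  induction n with
  | zero =>
    exact h.congr fun G _ v => ⟨fun h => ⟨v, h⟩, fun ⟨w, hw⟩ => by rwa [Subsingleton.elim v w]⟩
  | succ n ih =>
    refine (ih h.ex).congr fun G _ _ => ?_
    constructor
    · rintro ⟨v, x, h⟩
      exact ⟨_, h⟩
    · rintro ⟨v, h⟩
      exact ⟨Fin.init v, v (Fin.last n), by rwa [Fin.snoc_init_self]⟩

/-- Definable sentences are preserved by elementary equivalence. -/
theorem ElemEquiv.iff {G H : Type} [Group G] [Group H] (h : ElemEquiv G H)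
    {P : ∀ (G : Type) [Group G], (Fin 0 → G) → Prop} (hP : Def P) :
    P G Fin.elim0 ↔ P H Fin.elim0 := by
  obtain ⟨φ, hφ⟩ := hP
  rw [← hφ G Fin.elim0, ← hφ H Fin.elim0]
  have := h φ
  unfold Sat Sentence.Realize Formula.Realize at this
  have e1 : (default : Fin 0 → G) = Fin.elim0 := Subsingleton.elim _ _
  have e2 : (default : Fin 0 → H) = Fin.elim0 := Subsingleton.elim _ _
  rw [e1, e2] at this
  exact this

end Pool.Agent.N630.EFG
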