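import Mathlib

/-!
Free groups of rank two are linear (Sanov), and equationally Noetherian.
-/

set_option autoImplicit false

namespace Pool.Agent.N630.EFG

open Matrix

/-! The proof of Sanov's theorem is taken from the starting file `Pool/Agent/S02332.lean`. -/

def gA : GL (Fin 2) ℚ :=
  ⟨!![1, 2; 0, 1], !![1, -2; 0, 1],
    by ext i j; fin_cases i <;> fin_cases j <;> norm_num [Matrix.mul_apply, Fin.sum_univ_two],
    by ext i j; fin_cases i <;> fin_cases j <;> norm_num [Matrix.mul_apply, Fin.sum_univ_two]⟩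

def gB : GL (Fin 2) ℚ :=
  ⟨!![1, 0; 2, 1], !![1, 0; -2, 1],
    by ext i j; fin_cases i <;> fin_cases j <;> norm_num [Matrix.mul_apply, Fin.sum_univ_two],
    by ext i j; fin_cases i <;> fin_cases j <;> norm_num [Matrix.mul_apply, Fin.sum_univ_two]⟩

def XX : Fin 2 → Set (OnePoint ℚ) :=
  ![{z | z.elim True (fun t => 1 < t)}, {z | z.elim False (fun t => 0 ≤ t ∧ t ≤ 1)}]

def YY : Fin 2 → Set (OnePoint ℚ) :=
  ![{z | z.elim False (fun t => t ≤ -1)}, {z | z.elim False (fun t => -1 < t ∧ t < 0)}]

open scoped Function Pointwise in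
theorem rho_injective : Function.Injective (FreeGroup.lift ![gA, gB]) := by
  apply FreeGroup.injective_lift_of_ping_pong ![gA, gB] XX YY
  · intro i
    fin_cases i
    · exact ⟨OnePoint.infty, by simp [XX]⟩
    · exact ⟨((0 : ℚ) : OnePoint ℚ), by simp [XX]⟩
  · intro i j hij
    rw [Function.onFun, Set.disjoint_left]
    intro z h1 h2
    induction z using OnePoint.rec <;> fin_cases i <;> fin_cases j <;> simp_all [XX] <;> linarith
  · intro i j hij
    rw [Function.onFun, Set.disjoint_left]
    intro z h1 h2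
    induction z using OnePoint.rec <;> fin_cases i <;> fin_cases j <;> simp_all [YY] <;> linarith
  · intro i j
    rw [Set.disjoint_left]
    intro z h1 h2
    induction z using OnePoint.rec <;> fin_cases i <;> fin_cases j <;> simp_all [XX, YY] <;> linarith
  · intro i
    rw [Set.smul_set_subset_iff]
    intro z hz
    induction z using OnePoint.rec with
    | infty =>
      rw [OnePoint.smul_infty_eq_ite]
      fin_cases i <;> simp_all [XX, YY, gA, gB]
      norm_num
    | coe t =>
      rw [OnePoint.smul_some_eq_ite]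
      fin_cases i <;> simp_all [XX, YY, gA, gB]
      · linarith
      · rcases le_or_gt t (-1) with h | h
        · have h1 : 2 * t + 1 < 0 := by linarith
          rw [if_neg h1.ne]
          simp only [OnePoint.elim_some]
          exact ⟨div_nonneg_of_nonpos (by linarith) h1.le, by rw [div_le_one_of_neg h1]; linarith⟩
        · have h0 := hz h
          have h1 : 0 < 2 * t + 1 := by linarith
          rw [if_neg h1.ne']
          simp only [OnePoint.elim_some]
          exact ⟨div_nonneg h0 h1.le, by rw [div_le_one h1]; linarith⟩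
  · intro i
    rw [Set.smul_set_subset_iff]
    intro z hz
    induction z using OnePoint.rec with
    | infty =>
      rw [OnePoint.smul_infty_eq_ite]
      fin_cases i <;> simp_all [XX, YY, gA, gB]
      norm_num
    | coe t =>
      rw [OnePoint.smul_some_eq_ite]
      fin_cases i <;> simp_all [XX, YY, gA, gB]
      · linarith
      · rcases lt_or_ge t 0 with h | h
        · have h1 : 0 < -(2 * t) + 1 := by linarith
          rw [if_neg h1.ne']
          simp only [OnePoint.elim_some]
          exact ⟨by rw [lt_div_iff₀ h1]; linarith, div_neg_of_neg_of_pos h h1⟩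
        · have h0 := hz h
          have h1 : -(2 * t) + 1 < 0 := by linarith
          rw [if_neg h1.ne]
          simp only [OnePoint.elim_some]
          exact ⟨by rw [lt_div_iff_of_neg h1]; linarith, div_neg_of_pos_of_neg (by linarith) h1⟩

/-- The group of invertible `2 × 2` matrices over `ℚ` is equationally Noetherian. -/
theorem gl_noeth (n : ℕ) (R : Set (FreeGroup (Fin n))) :
    ∃ R₀ : Finset (FreeGroup (Fin n)), (R₀ : Set (FreeGroup (Fin n))) ⊆ R ∧
      ∀ x : Fin n → GL (Fin 2) ℚ, (∀ r ∈ R₀, FreeGroup.lift x r = 1) →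
        ∀ r ∈ R, FreeGroup.lift x r = 1 := by
  classical
  let A0 := MvPolynomial (Fin n × Bool × Fin 2 × Fin 2) ℚ
  let X0 : Fin n → Matrix (Fin 2) (Fin 2) A0 := fun i => Matrix.of fun j k =>
    MvPolynomial.X (i, true, j, k)
  let Y0 : Fin n → Matrix (Fin 2) (Fin 2) A0 := fun i => Matrix.of fun j k =>
    MvPolynomial.X (i, false, j, k)
  let J : Ideal A0 := Ideal.span
    {p | ∃ i j k, p = (X0 i * Y0 i - 1) j k ∨ p = (Y0 i * X0 i - 1) j k}
  let A := A0 ⧸ J
  let q : A0 →+* A := Ideal.Quotient.mk J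
  have hXY : ∀ i, q.mapMatrix (X0 i) * q.mapMatrix (Y0 i) = 1 := by
    intro i
    rw [← map_mul, ← sub_eq_zero, ← map_one q.mapMatrix, ← map_sub]
    ext j k
    exact Ideal.Quotient.eq_zero_iff_mem.2 (Ideal.subset_span ⟨i, j, k, Or.inl rfl⟩)
  have hYX : ∀ i, q.mapMatrix (Y0 i) * q.mapMatrix (X0 i) = 1 := by
    intro i
    rw [← map_mul, ← sub_eq_zero, ← map_one q.mapMatrix, ← map_sub]
    ext j k
    exact Ideal.Quotient.eq_zero_iff_mem.2 (Ideal.subset_span ⟨i, j, k, Or.inr rfl⟩)
  let U : Fin n → GL (Fin 2) A := fun i => ⟨q.mapMatrix (X0 i), q.mapMatrix (Y0 i), hXY i, hYX i⟩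
  let Φ : FreeGroup (Fin n) →* GL (Fin 2) A := FreeGroup.lift U
  let g : FreeGroup (Fin n) → Fin 2 → Fin 2 → A := fun r j k =>
    ((Φ r : Matrix (Fin 2) (Fin 2) A) - 1) j k
  -- evaluation at a tuple of matrices
  have hev : ∀ x : Fin n → GL (Fin 2) ℚ, ∃ ev : A →+* ℚ, ∀ r : FreeGroup (Fin n),
      FreeGroup.lift x r = 1 ↔ ∀ j k, ev (g r j k) = 0 := by
    intro x
    let e0 : A0 →+* ℚ := MvPolynomial.eval fun s : Fin n × Bool × Fin 2 × Fin 2 =>
      if s.2.1 then (x s.1 : Matrix (Fin 2) (Fin 2) ℚ) s.2.2.1 s.2.2.2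
      else ((x s.1)⁻¹ : GL (Fin 2) ℚ) s.2.2.1 s.2.2.2
    have eX : ∀ i, e0.mapMatrix (X0 i) = (x i : Matrix (Fin 2) (Fin 2) ℚ) := by
      intro i
      ext j k
      show e0 (MvPolynomial.X (i, true, j, k)) = _
      rw [MvPolynomial.eval_X]
      rfl
    have eY : ∀ i, e0.mapMatrix (Y0 i) = ((x i)⁻¹ : GL (Fin 2) ℚ) := by
      intro i
      ext j k
      show e0 (MvPolynomial.X (i, false, j, k)) = _
      rw [MvPolynomial.eval_X]
      rfl
    have hJ : ∀ a ∈ J, e0 a = 0 := by
      intro a ha
      have hle : J ≤ RingHom.ker e0 := by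
        rw [Ideal.span_le]
        rintro p ⟨i, j, k, rfl | rfl⟩
        · show e0 ((X0 i * Y0 i - 1) j k) = 0
          have : e0.mapMatrix (X0 i * Y0 i - 1) = 0 := by
            rw [map_sub, map_mul, map_one, eX, eY, ← Units.val_mul, mul_inv_cancel,
              Units.val_one, sub_self]
          exact congrFun (congrFun this j) k
        · show e0 ((Y0 i * X0 i - 1) j k) = 0
          have : e0.mapMatrix (Y0 i * X0 i - 1) = 0 := by
            rw [map_sub, map_mul, map_one, eX, eY, ← Units.val_mul, inv_mul_cancel,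
              Units.val_one, sub_self]
          exact congrFun (congrFun this j) k
      exact hle ha
    let ev : A →+* ℚ := Ideal.Quotient.lift J e0 hJ
    refine ⟨ev, fun r => ?_⟩
    have hcomp : (Matrix.GeneralLinearGroup.map ev).comp Φ = FreeGroup.lift x := by
      apply FreeGroup.ext_hom
      intro i
      rw [MonoidHom.comp_apply]
      simp only [Φ, FreeGroup.lift_apply_of]
      ext j k
      rw [← eX i]
      rfl
    have h1 : FreeGroup.lift x r = Matrix.GeneralLinearGroup.map ev (Φ r) := by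
      rw [← hcomp]; rfl
    rw [h1]
    constructor
    · intro h j k
      have h2 : (Matrix.GeneralLinearGroup.map ev (Φ r)).val = (1 : Matrix (Fin 2) (Fin 2) ℚ) := by
        rw [h]; rfl
      have h3 := congrFun (congrFun h2 j) k
      show ev ((Φ r : Matrix (Fin 2) (Fin 2) A) j k - (1 : Matrix (Fin 2) (Fin 2) A) j k) = 0
      rw [map_sub]
      have h4 : ev ((Φ r : Matrix (Fin 2) (Fin 2) A) j k) = (1 : Matrix (Fin 2) (Fin 2) ℚ) j k := h3
      rw [h4, Matrix.one_apply, Matrix.one_apply]
      split_ifs <;> simp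
    · intro h
      ext j k
      have h2 : ev ((Φ r : Matrix (Fin 2) (Fin 2) A) j k - (1 : Matrix (Fin 2) (Fin 2) A) j k) = 0 :=
        h j k
      rw [map_sub, sub_eq_zero] at h2
      show ev ((Φ r : Matrix (Fin 2) (Fin 2) A) j k) = (1 : Matrix (Fin 2) (Fin 2) ℚ) j k
      rw [h2, Matrix.one_apply, Matrix.one_apply]
      split_ifs <;> simp
  let S : Set A := {a | ∃ r ∈ R, ∃ j k, a = g r j k}
  have hnoeth : IsNoetherianRing A := inferInstance
  obtain ⟨T, hT, hTs⟩ := (Submodule.fg_span_iff_fg_span_finset_subset S).1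
    (IsNoetherian.noetherian (Submodule.span A S))
  have hch : ∀ t : T, ∃ r ∈ R, ∃ j k, (t : A) = g r j k := fun t => hT t.2
  choose ρ hρ hρ2 using hch
  refine ⟨Finset.univ.image ρ, ?_, ?_⟩
  · intro r hr
    simp only [Finset.coe_image, Finset.coe_univ, Set.image_univ, Set.mem_range] at hr
    obtain ⟨t, rfl⟩ := hr
    exact hρ t
  · intro x hx r hr
    obtain ⟨ev, hev⟩ := hev x
    rw [hev]
    have hker : Submodule.span A (T : Set A) ≤ (RingHom.ker ev : Ideal A) := by
      rw [Submodule.span_le]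
      intro t ht
      obtain ⟨j, k, hjk⟩ := hρ2 ⟨t, ht⟩
      show ev t = 0
      have h1 := (hev (ρ ⟨t, ht⟩)).1 (hx _ (Finset.mem_image_of_mem _ (Finset.mem_univ _))) j k
      rw [← hjk] at h1
      exact h1
    intro j k
    have h1 : g r j k ∈ Submodule.span A S := Submodule.subset_span ⟨r, hr, j, k, rfl⟩
    rw [hTs] at h1
    exact hker h1

/-- The free group of rank two is equationally Noetherian. -/
theorem free_noeth (n : ℕ) (R : Set (FreeGroup (Fin n))) :
    ∃ R₀ : Finset (FreeGroup (Fin n)), (R₀ : Set (FreeGroup (Fin n))) ⊆ R ∧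
      ∀ x : Fin n → FreeGroup (Fin 2), (∀ r ∈ R₀, FreeGroup.lift x r = 1) →
        ∀ r ∈ R, FreeGroup.lift x r = 1 := by
  obtain ⟨R₀, h1, h2⟩ := gl_noeth n R
  refine ⟨R₀, h1, fun x hx r hr => ?_⟩
  set ρ : FreeGroup (Fin 2) →* GL (Fin 2) ℚ := FreeGroup.lift ![gA, gB] with hρ
  have hinj : Function.Injective ρ := rho_injective
  have hc : ∀ w, FreeGroup.lift (fun i => ρ (x i)) w = ρ (FreeGroup.lift x w) := by
    intro w
    have : FreeGroup.lift (fun i => ρ (x i)) = ρ.comp (FreeGroup.lift x) := by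
      apply FreeGroup.ext_hom
      intro i
      simp
    rw [this]; rfl
  apply hinj
  rw [map_one, ← hc]
  apply h2 _ _ r hr
  intro s hs
  rw [hc, hx s hs, map_one]

end Pool.Agent.N630.EFG
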