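import Pool.Agent.N630.EFG.Lang
import Pool.Agent.N630.EFG.Noeth
import Pool.Agent.Helper180.FreeMetric

/-!
A finitely generated group elementarily equivalent to a free group of rank two contains no free
abelian subgroup of rank two.
-/

set_option autoImplicit false

namespace Pool.Agent.N630.EFG

/-- the free group of rank two -/
abbrev F2 := FreeGroup (Fin 2)

/-- Finitely generated elementary free groups are fully residually free (two elements). -/
theorem discriminate {L : Type} [Group L] [hfg : Group.FG L] (h : ElemEquiv L F2) (a b : L)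
    (ha : a ≠ 1) (hb : b ≠ 1) : ∃ f : L →* F2, f a ≠ 1 ∧ f b ≠ 1 := by
  obtain ⟨n, π, hπ⟩ : ∃ (n : ℕ) (π : FreeGroup (Fin n) →* L), Function.Surjective π := by
    obtain ⟨α, _, φ, hφ⟩ := Group.fg_iff_exists_freeGroup_hom_surjective_finite.1 hfg
    obtain ⟨n, ⟨e⟩⟩ := Finite.exists_equiv_fin α
    exact ⟨n, φ.comp (FreeGroup.freeGroupCongr e).symm,
      hφ.comp (FreeGroup.freeGroupCongr e).symm.surjective⟩
  obtain ⟨u, hu⟩ := hπ a
  obtain ⟨w, hw⟩ := hπ b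
  obtain ⟨R₀, h1, h2⟩ := free_noeth n (π.ker : Set (FreeGroup (Fin n)))
  have hdef : Def (n := 0) fun G _ _ => ∃ v : Fin n → G, ((∀ r ∈ R₀, FreeGroup.lift v r = 1) ∧
      ¬ FreeGroup.lift v u = 1) ∧ ¬ FreeGroup.lift v w = 1 :=
    Def.exs (((Def.finAnd R₀ fun r => Def.word r).and (Def.word u).not).and (Def.word w).not)
  have key := (h.iff hdef).1 ?_
  · obtain ⟨x, ⟨hx, hxu⟩, hxw⟩ := key
    have hker : π.ker ≤ (FreeGroup.lift x).ker := fun r hr => h2 x hx r hr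
    have hval : ∀ z, π.liftOfSurjective hπ ⟨FreeGroup.lift x, hker⟩ (π z) = FreeGroup.lift x z :=
      fun z => MonoidHom.liftOfRightInverse_comp_apply _ _ _ _ _
    refine ⟨π.liftOfSurjective hπ ⟨FreeGroup.lift x, hker⟩, ?_, ?_⟩
    · rw [← hu, hval]; exact hxu
    · rw [← hw, hval]; exact hxw
  · have hl : FreeGroup.lift (fun i => π (FreeGroup.of i)) = π := by
      apply FreeGroup.ext_hom
      intro i
      simp
    refine ⟨fun i => π (FreeGroup.of i), ⟨?_, ?_⟩, ?_⟩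
    · intro r hr
      rw [hl]
      exact h1 hr
    · rw [hl, hu]; exact ha
    · rw [hl, hw]; exact hb

/-- the commutator word of two variables -/
def cw {n : ℕ} (i j : Fin n) : FreeGroup (Fin n) :=
  FreeGroup.of i * FreeGroup.of j * (FreeGroup.of i)⁻¹ * (FreeGroup.of j)⁻¹

theorem lift_cw {n : ℕ} {G : Type} [Group G] (v : Fin n → G) (i j : Fin n) :
    FreeGroup.lift v (cw i j) = 1 ↔ v i * v j = v j * v i := by
  simp only [cw, map_mul, map_inv, FreeGroup.lift_apply_of]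
  rw [mul_inv_eq_one, mul_inv_eq_iff_eq_mul]

/-- The statement about centralizers modulo `N`-th powers. -/
def Cent (N : ℕ) (G : Type) [Group G] (a b : G) : Prop :=
  a * b = b * a → ¬ a = 1 → ∃ r c d : G, (r * a = a * r ∧ c * a = a * c ∧ d * a = a * d) ∧
    (∃ i ∈ Finset.range N, a = r ^ i * c ^ N) ∧ ∃ j ∈ Finset.range N, b = r ^ j * d ^ N

theorem def_cent (N : ℕ) : Def (n := 0) fun G _ _ => ¬ ∃ v : Fin 2 → G, ¬ Cent N G (v 0) (v 1) := by
  refine (Def.exs (Def.not ?_)).not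
  have hb : Def (n := 5) fun G _ v =>
      (FreeGroup.lift v (cw 2 0) = 1 ∧ FreeGroup.lift v (cw 3 0) = 1 ∧
        FreeGroup.lift v (cw 4 0) = 1) ∧
      (∃ i ∈ Finset.range N, FreeGroup.lift v ((FreeGroup.of 0)⁻¹ * (FreeGroup.of 2 ^ i *
        FreeGroup.of 3 ^ N)) = 1) ∧ ∃ j ∈ Finset.range N,
        FreeGroup.lift v ((FreeGroup.of 1)⁻¹ * (FreeGroup.of 2 ^ j * FreeGroup.of 4 ^ N)) = 1 :=
    ((Def.word _).and ((Def.word _).and (Def.word _))).and
      ((Def.finOr _ fun i => Def.word _).and (Def.finOr _ fun j => Def.word _))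
  have h1 := (Def.word (n := 2) (cw 0 1)).imp ((Def.word (n := 2) (FreeGroup.of 0)).not.imp
    hb.ex.ex.ex)
  refine h1.congr fun G _ v => ?_
  unfold Cent
  rw [lift_cw, FreeGroup.lift_apply_of]
  apply imp_congr_right
  intro _
  apply imp_congr_right
  intro _
  apply exists_congr
  intro r
  apply exists_congr
  intro c
  apply exists_congr
  intro d
  have e0 : (Fin.snoc (Fin.snoc (Fin.snoc v r : Fin 3 → G) c : Fin 4 → G) d : Fin 5 → G) 0 = v 0 := by
    rfl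
  have e1 : (Fin.snoc (Fin.snoc (Fin.snoc v r : Fin 3 → G) c : Fin 4 → G) d : Fin 5 → G) 1 = v 1 := by
    rfl
  have e2 : (Fin.snoc (Fin.snoc (Fin.snoc v r : Fin 3 → G) c : Fin 4 → G) d : Fin 5 → G) 2 = r := by
    rfl
  have e3 : (Fin.snoc (Fin.snoc (Fin.snoc v r : Fin 3 → G) c : Fin 4 → G) d : Fin 5 → G) 3 = c := by
    rfl
  have e4 : (Fin.snoc (Fin.snoc (Fin.snoc v r : Fin 3 → G) c : Fin 4 → G) d : Fin 5 → G) 4 = d := by
    rfl
  rw [lift_cw, lift_cw, lift_cw, e0, e2, e3, e4]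
  apply and_congr Iff.rfl
  apply and_congr
  · apply exists_congr
    intro i
    apply and_congr Iff.rfl
    simp only [map_mul, map_inv, map_pow, FreeGroup.lift_apply_of]
    rw [e0, e2, e3, inv_mul_eq_one]
  · apply exists_congr
    intro i
    apply and_congr Iff.rfl
    simp only [map_mul, map_inv, map_pow, FreeGroup.lift_apply_of]
    rw [e1, e2, e4, inv_mul_eq_one]

theorem cent_F2 {N : ℕ} (hN : 0 < N) (a b : F2) : Cent N F2 a b := by
  intro hab ha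
  obtain ⟨ρ, -, hρ⟩ := Helper180.FreeMetric.centralizer_cyclic a ha
  obtain ⟨s, hs⟩ := hρ a rfl
  obtain ⟨t, ht⟩ := hρ b hab.symm
  have key : ∀ s : ℤ, ∃ i ∈ Finset.range N, ρ ^ s = ρ ^ i * (ρ ^ (s / (N : ℤ))) ^ N := by
    intro s
    have hpos : (0 : ℤ) < N := by exact_mod_cast hN
    refine ⟨(s % N).toNat, ?_, ?_⟩
    · rw [Finset.mem_range]
      have h1 := Int.emod_lt_of_pos s hpos
      have h2 := Int.emod_nonneg s hpos.ne'
      omega
    · rw [← zpow_natCast ρ, ← zpow_natCast (ρ ^ (s / (N : ℤ))), ← zpow_mul, ← zpow_add,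
        Int.toNat_of_nonneg (Int.emod_nonneg s hpos.ne')]
      congr 1
      rw [mul_comm]
      exact (Int.emod_add_mul_ediv s N).symm
  obtain ⟨i, hi, hi2⟩ := key s
  obtain ⟨j, hj, hj2⟩ := key t
  refine ⟨ρ, ρ ^ (s / (N : ℤ)), ρ ^ (t / (N : ℤ)), ⟨?_, ?_, ?_⟩, ⟨i, hi, ?_⟩, ⟨j, hj, ?_⟩⟩
  · rw [hs]; exact (Commute.self_zpow ρ s)
  · rw [hs]; exact (Commute.zpow_zpow_self ρ _ s)
  · rw [hs]; exact (Commute.zpow_zpow_self ρ _ s)
  · rw [← hi2, ← hs]
  · rw [← hj2, ← ht]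

theorem cent_of_elem {L : Type} [Group L] (h : ElemEquiv L F2) {N : ℕ} (hN : 0 < N) (a b : L) :
    Cent N L a b := by
  have := (h.iff (def_cent N)).2 (by
    rintro ⟨v, hv⟩
    exact hv (cent_F2 hN _ _))
  by_contra hc
  exact this ⟨![a, b], hc⟩

/-- The values of two commuting elements under homomorphisms. -/
theorem values {L : Type} [Group L] (f : L →* F2) (a : L) (hfa : f a ≠ 1) :
    ∃ ρ : F2, (∀ n : ℤ, ρ ^ n = 1 → n = 0) ∧ ∀ x, x * a = a * x → ∃ n : ℤ, f x = ρ ^ n := by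
  obtain ⟨ρ, -, hρ⟩ := Helper180.FreeMetric.centralizer_cyclic (f a) hfa
  refine ⟨ρ, ?_, fun x hx => hρ _ (by rw [← map_mul, hx, map_mul])⟩
  intro n hn
  by_contra hn0
  have h1 : ρ ≠ 1 := by
    rintro rfl
    obtain ⟨m, hm⟩ := hρ (f a) rfl
    rw [one_zpow] at hm
    exact hfa hm
  rcases Int.natAbs_eq n with h | h
  · rw [h, zpow_natCast] at hn
    have h2 : n.natAbs ≠ 0 := by omega
    have := (pow_eq_one_iff_left h2 (a := ρ)).1 hn
    exact h1 this
  · rw [h, zpow_neg, zpow_natCast, inv_eq_one] at hn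
    have h2 : n.natAbs ≠ 0 := by omega
    have := (pow_eq_one_iff_left h2 (a := ρ)).1 hn
    exact h1 this

/-- In a finitely generated elementary free group two commuting elements are dependent. -/
theorem dependent {L : Type} [Group L] [Group.FG L] (h : ElemEquiv L F2) (a b : L)
    (hab : a * b = b * a) : ∃ m n : ℤ, (m ≠ 0 ∨ n ≠ 0) ∧ a ^ m * b ^ n = 1 := by
  by_cases ha : a = 1
  · exact ⟨1, 0, Or.inl one_ne_zero, by simp [ha]⟩
  -- congruences
  have hc : ∀ N : ℕ, 0 < N → ∃ i j : ℤ, ∀ (f : L →* F2), f a ≠ 1 → ∀ (ρ : F2),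
      (∀ n : ℤ, ρ ^ n = 1 → n = 0) → (∀ x, x * a = a * x → ∃ n : ℤ, f x = ρ ^ n) →
      ∀ s t : ℤ, f a = ρ ^ s → f b = ρ ^ t → (∃ u v w : ℤ, s = i * u + N * v ∧ t = j * u + N * w) := by
    intro N hN
    obtain ⟨r, c, d, ⟨hr, hc, hd⟩, ⟨i, -, hi⟩, ⟨j, -, hj⟩⟩ := cent_of_elem h hN a b hab ha
    refine ⟨i, j, fun f _ ρ hρ hx s t hs ht => ?_⟩
    obtain ⟨u, hu⟩ := hx r hr
    obtain ⟨v, hv⟩ := hx c hc
    obtain ⟨w, hw⟩ := hx d hd
    have inj : ∀ m n : ℤ, ρ ^ m = ρ ^ n → m = n := by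
      intro m n hmn
      have := hρ (m - n) (by rw [zpow_sub, hmn, mul_inv_cancel])
      omega
    refine ⟨u, v, w, ?_, ?_⟩
    · apply inj
      rw [← hs, hi, map_mul, map_pow, map_pow, hu, hv, zpow_add, mul_comm (i : ℤ), zpow_mul,
        zpow_natCast, mul_comm (N : ℤ), zpow_mul, zpow_natCast]
    · apply inj
      rw [← ht, hj, map_mul, map_pow, map_pow, hu, hw, zpow_add, mul_comm (j : ℤ), zpow_mul,
        zpow_natCast, mul_comm (N : ℤ), zpow_mul, zpow_natCast]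
  obtain ⟨f₀, hf₀, -⟩ := discriminate h a a ha ha
  obtain ⟨ρ₀, hρ₀, hx₀⟩ := values f₀ a hf₀
  obtain ⟨s₀, hs₀⟩ := hx₀ a rfl
  obtain ⟨t₀, ht₀⟩ := hx₀ b hab.symm
  have hs₀0 : s₀ ≠ 0 := by
    rintro rfl
    rw [zpow_zero] at hs₀
    exact hf₀ hs₀
  -- proportionality
  have prop : ∀ (f : L →* F2), f a ≠ 1 → ∀ (ρ : F2),
      (∀ n : ℤ, ρ ^ n = 1 → n = 0) → (∀ x, x * a = a * x → ∃ n : ℤ, f x = ρ ^ n) →
      ∀ s t : ℤ, f a = ρ ^ s → f b = ρ ^ t → s * t₀ = s₀ * t := by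
    intro f hf ρ hρ hx s t hs ht
    by_contra hne
    set δ : ℤ := s * t₀ - s₀ * t with hδ
    have hδ0 : δ ≠ 0 := sub_ne_zero.2 hne
    -- every `M > 0` divides `s₀`
    have hdvd : ∀ M : ℕ, 0 < M → (M : ℤ) ∣ s₀ := by
      intro M hM
      have hN : 0 < δ.natAbs * M := Nat.mul_pos (Int.natAbs_pos.2 hδ0) hM
      obtain ⟨i, j, hij⟩ := hc _ hN
      obtain ⟨u, v, w, h1, h2⟩ := hij f hf ρ hρ hx s t hs ht
      obtain ⟨u', v', w', h3, h4⟩ := hij f₀ hf₀ ρ₀ hρ₀ hx₀ s₀ t₀ hs₀ ht₀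
      set N : ℤ := ((δ.natAbs * M : ℕ) : ℤ) with hNdef
      have h5 : N ∣ δ * i := by
        have e1 : s * j - t * i = N * (v * j - w * i) := by rw [h1, h2]; ring
        have e2 : s₀ * j - t₀ * i = N * (v' * j - w' * i) := by rw [h3, h4]; ring
        refine ⟨s₀ * (v * j - w * i) - s * (v' * j - w' * i), ?_⟩
        have : N * (s₀ * (v * j - w * i) - s * (v' * j - w' * i)) =
          s₀ * (N * (v * j - w * i)) - s * (N * (v' * j - w' * i)) := by ring
        rw [this, ← e1, ← e2, hδ]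
        ring
      have h6 : (M : ℤ) ∣ i := by
        rw [hNdef, Nat.cast_mul] at h5
        have h7 : δ * (M : ℤ) ∣ δ * i := by
          refine dvd_trans ?_ h5
          exact mul_dvd_mul_right (Int.dvd_natAbs.2 dvd_rfl) _
        exact Int.dvd_of_mul_dvd_mul_left hδ0 h7
      rw [h3]
      apply dvd_add
      · exact Dvd.dvd.mul_right h6 _
      · apply Dvd.dvd.mul_right
        rw [hNdef, Nat.cast_mul]
        exact Dvd.intro_left _ rfl
    have h8 := hdvd (s₀.natAbs + 1) (by omega)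
    have h9 := Int.le_of_dvd (Int.natAbs_pos.2 hs₀0 |> fun h => by exact_mod_cast h)
      (Int.dvd_natAbs.2 h8)
    omega
  refine ⟨t₀, -s₀, Or.inr (neg_ne_zero.2 hs₀0), ?_⟩
  by_contra hg
  obtain ⟨f, hf, hfg⟩ := discriminate h a _ ha hg
  obtain ⟨ρ, hρ, hx⟩ := values f a hf
  obtain ⟨s, hs⟩ := hx a rfl
  obtain ⟨t, ht⟩ := hx b hab.symm
  apply hfg
  rw [map_mul, map_zpow, map_zpow, hs, ht, ← zpow_mul, ← zpow_mul, ← zpow_add]
  have := prop f hf ρ hρ hx s t hs ht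
  rw [this]
  have e : s₀ * t + t * -s₀ = 0 := by ring
  rw [e, zpow_zero]

end Pool.Agent.N630.EFG
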